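import Pool.Agent.Lib.MP_54c5a6_an.Inv
import Pool.Agent.Lib.MP_54c5a6_an.Hyp

set_option autoImplicit false

universe v

namespace Pool.Agent.Results.MP_54c5a6_an.SigmaSubsetDisproof

open Pool.Agent.Lib.MP_54c5a6_an

/-- `Σ(Γ)`: the functions `x : Γ → ℝ` with `{γ | x γ ≠ 0}` countable. -/
def SigmaProduct (Γ : Type v) : Set (Γ → ℝ) := {x | {γ | x γ ≠ 0}.Countable}

/-- `A` is a Σ-subset of the topological space `K` (index sets in the universe `v`): there are a
set `Γ` and a homeomorphic embedding `h : K → ℝ^Γ` (product topology) with `A = h⁻¹(Σ(Γ))`. -/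
def IsSigmaSubset {K : Type} [TopologicalSpace K] (A : Set K) : Prop :=
  ∃ (Γ : Type v) (h : K → Γ → ℝ), Topology.IsEmbedding h ∧ A = h ⁻¹' SigmaProduct Γ

section

variable (X : Type) [NormedAddCommGroup X] [NormedSpace ℂ X]

/-- The closed unit ball of `X*` as a subset of `X*` with the weak* topology. -/
def dualBall : Set (WeakDual ℂ X) := WeakDual.toStrongDual ⁻¹' Metric.closedBall 0 1

variable {X}

/-- `A ⊆ X*` is a Σ-subset of `(B_{X*}, w*)`. -/
def IsSigmaSubsetOfBall (A : Set (WeakDual ℂ X)) : Prop :=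
  A ⊆ dualBall X ∧ IsSigmaSubset.{v} ((Subtype.val : dualBall X → WeakDual ℂ X) ⁻¹' A)

/-- `A ⊆ X*` is a dense Σ-subset of `(B_{X*}, w*)`. -/
def IsDenseSigmaSubsetOfBall (A : Set (WeakDual ℂ X)) : Prop :=
  IsSigmaSubsetOfBall.{v} A ∧ dualBall X ⊆ closure A

/-- absolutely convex, word for word as in the problem -/
def IsAbsolutelyConvex (A : Set (WeakDual ℂ X)) : Prop :=
  ∀ n : ℕ, 1 ≤ n → ∀ x : Fin n → WeakDual ℂ X, (∀ i, x i ∈ A) → ∀ t : Fin n → ℂ,
    ∑ i, ‖t i‖ ≤ 1 → ∑ i, t i • x i ∈ A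

end

private theorem mem_dualBall {X : Type} [NormedAddCommGroup X] [NormedSpace ℂ X]
    {φ : WeakDual ℂ X} : φ ∈ dualBall X ↔ ∀ x : X, ‖φ x‖ ≤ ‖x‖ := by
  unfold dualBall
  rw [Set.mem_preimage, mem_closedBall_zero_iff, ContinuousLinearMap.opNorm_le_iff zero_le_one]
  simp only [one_mul]
  rfl

private theorem dualBall_eq (Γ : Type) [Nontrivial Γ] : dualBall ↥(Xs Γ) = ball Γ := by
  ext φ
  exact mem_dualBall

/-- An index type of cardinality `ℵ₂`. -/
private theorem exists_index : ∃ Γ : Type, Cardinal.aleph 2 ≤ Cardinal.mk Γ :=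
  ⟨Quotient.out (Cardinal.aleph 2 : Cardinal.{0}), (Cardinal.mk_out _).ge⟩

private instance compact_dualBall (X : Type) [NormedAddCommGroup X] [NormedSpace ℂ X] :
    CompactSpace (dualBall X) :=
  isCompact_iff_compactSpace.1 (WeakDual.isCompact_closedBall (𝕜 := ℂ) (E := X) 0 1)

/-- the positive statement -/
private def PosS (X : Type) [NormedAddCommGroup X] [NormedSpace ℂ X] : Prop :=
  ∃ A : Set (WeakDual ℂ X), IsDenseSigmaSubsetOfBall.{0} A ∧
      (∃ D : Submodule ℝ (WeakDual ℂ X), A = dualBall X ∩ D)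

/-- the negative statement -/
private def NegS (X : Type) [NormedAddCommGroup X] [NormedSpace ℂ X] : Prop :=
  ∀ S A : Set (WeakDual ℂ X), IsSigmaSubsetOfBall.{v} S → A ⊆ S → dualBall X ⊆ closure A →
        Convex ℝ A → ∀ w : ℂ, w.im ≠ 0 → ∃ φ ∈ A, w • φ ∉ A

/-- the positive part -/
private theorem positive (Γ : Type) [Nontrivial Γ] : PosS ↥(Xs Γ) := by
  unfold PosS
  let D : Submodule ℝ (WeakDual ℂ ↥(Xs Γ)) :=
    { carrier := {φ | {p | hS (co φ) p ≠ 0}.Countable}
      add_mem' := by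
        intro φ ψ hφ hψ
        refine (Set.Countable.union hφ hψ).mono ?_
        intro p hp
        by_contra hcon
        rw [Set.mem_union, not_or] at hcon
        apply hp
        have e1 : hS (co φ) p = 0 := not_not.1 hcon.1
        have e2 : hS (co ψ) p = 0 := not_not.1 hcon.2
        have h1 := hS_comb 1 1 (co φ) (co ψ) p
        have h2 := co_comb 1 1 φ ψ
        rw [e1, e2] at h1
        simp only [Complex.ofReal_one, one_smul, mul_zero, add_zero] at h1 h2
        rw [h2, h1]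
      zero_mem' := by
        have : {p : Ix Γ × Fin 4 | hS (co (0 : WeakDual ℂ ↥(Xs Γ))) p ≠ 0} = ∅ := by
          ext p
          have h1 := hS_comb 0 0 (co (0 : WeakDual ℂ ↥(Xs Γ))) (co 0) p
          have h2 := co_comb 0 0 (0 : WeakDual ℂ ↥(Xs Γ)) 0
          simp only [Complex.ofReal_zero, zero_smul, zero_mul, add_zero] at h1 h2
          simp only [Set.mem_ofPred_eq, Set.mem_empty_iff_false, iff_false, not_not]
          rw [h2, h1]
        show Set.Countable {p : Ix Γ × Fin 4 | hS (co (0 : WeakDual ℂ ↥(Xs Γ))) p ≠ 0}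
        rw [this]
        exact Set.countable_empty
      smul_mem' := by
        intro c φ hφ
        refine Set.Countable.mono ?_ hφ
        intro p hp
        by_contra hcon
        apply hp
        have e1 : hS (co φ) p = 0 := not_not.1 hcon
        have h1 := hS_comb c 0 (co φ) (co φ) p
        have h2 := co_comb (c : ℂ) 0 φ φ
        rw [e1] at h1
        simp only [Complex.ofReal_zero, zero_smul, mul_zero, add_zero] at h1 h2
        have h3 : c • φ = (c : ℂ) • φ := (Complex.coe_smul c φ).symm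
        rw [h3, h2, h1] }
  have hmem : ∀ φ, φ ∈ D ↔ {p | hS (co φ) p ≠ 0}.Countable := fun _ => Iff.rfl
  refine ⟨dualBall ↥(Xs Γ) ∩ D, ⟨⟨Set.inter_subset_left, ?_⟩, ?_⟩, D, rfl⟩
  · refine ⟨Ix Γ × Fin 4, fun φ => hS (co φ.1), ?_, ?_⟩
    · have hcont : Continuous fun φ : dualBall ↥(Xs Γ) => hS (co φ.1) :=
        continuous_hS.comp (continuous_co.comp continuous_subtype_val)
      have hinj : Function.Injective fun φ : dualBall ↥(Xs Γ) => hS (co φ.1) := by
        intro φ ψ h
        exact Subtype.ext (ext_co (hS_injective h))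
      exact (hcont.isClosedEmbedding hinj).isEmbedding
    · ext φ
      constructor
      · rintro ⟨-, h⟩
        exact h
      · intro h
        exact ⟨φ.2, h⟩
  · intro φ hφ
    rw [dualBall_eq] at hφ
    have hF : co φ ∈ B Γ := co_mem_B hφ
    have h1 : Filter.Tendsto (fun I : Finset Γ => (⟨fI I (co φ), fI_mem I hF⟩ : ↥(B Γ)))
        Filter.atTop (nhds ⟨co φ, hF⟩) := by
      rw [tendsto_subtype_rng]
      exact tendsto_fI hF.2
    have h2 := (continuous_ev.tendsto _).comp h1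
    rw [ev_co hφ] at h2
    refine mem_closure_of_tendsto h2 (Filter.Eventually.of_forall fun I => ?_)
    refine ⟨?_, countable_hS_fI I (co φ)⟩
    rw [dualBall_eq]
    exact ev_mem_ball _

/-- the negative part -/
private theorem negative {Γ : Type} (hΓ : Cardinal.aleph 2 ≤ Cardinal.mk Γ) [Nontrivial Γ] :
    NegS.{v} ↥(Xs Γ) := by
  classical
  intro S A hS hAS hdense hconv w hw
  by_contra hcon
  push Not at hcon
  obtain ⟨hSb, Γ', h, hemb, hSh⟩ := hS
  have hAball : ∀ φ ∈ A, φ ∈ ball Γ := by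
    intro φ hφ
    rw [← dualBall_eq]
    exact hSb (hAS hφ)
  let g : P Γ → Γ' → ℝ := fun F => if hF : F ∈ B Γ then
    h ⟨ev ⟨F, hF⟩, by rw [dualBall_eq]; exact ev_mem_ball _⟩ else 0
  have hg : ∀ F (hF : F ∈ B Γ), g F = h ⟨ev ⟨F, hF⟩, by
      rw [dualBall_eq]; exact ev_mem_ball _⟩ := fun F hF => dif_pos hF
  refine no_inv hΓ g ?_ ?_ {F | ∃ hF : F ∈ B Γ, ev ⟨F, hF⟩ ∈ A} ?_ ?_ ?_ ?_ w hw ?_
  · rw [continuousOn_iff_continuous_domRestrict]
    have h1 : (B Γ).domRestrict g =
        h ∘ fun F : ↥(B Γ) => (⟨ev F, by rw [dualBall_eq]; exact ev_mem_ball _⟩ :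
          dualBall ↥(Xs Γ)) := by
      funext F
      exact hg F.1 F.2
    rw [h1]
    exact hemb.continuous.comp (continuous_ev.subtype_mk _)
  · intro F hF G hG hFG
    rw [hg F hF, hg G hG] at hFG
    have h1 := congrArg Subtype.val (hemb.injective hFG)
    have h2 := congrArg co h1
    rwa [co_ev, co_ev] at h2
  · rintro F ⟨hF, -⟩
    exact hF
  · rintro F ⟨hF, hFA⟩
    rw [hg F hF]
    have h1 : (⟨ev ⟨F, hF⟩, by rw [dualBall_eq]; exact ev_mem_ball _⟩ : dualBall ↥(Xs Γ)) ∈
        (Subtype.val : dualBall ↥(Xs Γ) → WeakDual ℂ ↥(Xs Γ)) ⁻¹' S := hAS hFA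
    rw [hSh] at h1
    exact h1
  · intro F hF
    have h1 : ev ⟨F, hF⟩ ∈ closure A := hdense (by rw [dualBall_eq]; exact ev_mem_ball _)
    have h2 : co (ev ⟨F, hF⟩) ∈ closure {F | ∃ hF : F ∈ B Γ, ev ⟨F, hF⟩ ∈ A} := by
      refine map_mem_closure continuous_co h1 ?_
      intro φ hφ
      refine ⟨co_mem_B (hAball φ hφ), ?_⟩
      rw [ev_co (hAball φ hφ)]
      exact hφ
    rwa [co_ev] at h2
  · rintro F ⟨hF, hFA⟩ G ⟨hG, hGA⟩ s t hs ht hst
    have hn : ‖(s : ℂ)‖ + ‖(t : ℂ)‖ ≤ 1 := by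
      rw [Complex.norm_real, Complex.norm_real, Real.norm_of_nonneg hs, Real.norm_of_nonneg ht]
      exact hst.le
    have e1 : s • F + t • G = (s : ℂ) • F + (t : ℂ) • G := by
      rw [Complex.coe_smul, Complex.coe_smul]
    have hm : s • F + t • G ∈ B Γ := by
      rw [e1]
      exact abs_B hn hF hG
    refine ⟨hm, ?_⟩
    have h1 := ev_comb hn ⟨F, hF⟩ ⟨G, hG⟩
    have h2 : ev ⟨s • F + t • G, hm⟩ = s • ev ⟨F, hF⟩ + t • ev ⟨G, hG⟩ := by
      have h3 : ev ⟨s • F + t • G, hm⟩ = ev ⟨(s : ℂ) • F + (t : ℂ) • G, abs_B hn hF hG⟩ := by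
        congr 2
      rw [h3]
      exact h1
    rw [h2]
    exact hconv hFA hGA hs ht hst
  · rintro F ⟨hF, hFA⟩
    have hwA := hcon _ hFA
    have hb := hAball _ hwA
    have h1 := co_mem_B hb
    have h2 : co (w • ev ⟨F, hF⟩) = w • F := by
      have := co_comb w 0 (ev ⟨F, hF⟩) (ev ⟨F, hF⟩)
      simpa [co_ev] using this
    have h3 : w • F ∈ B Γ := by
      rw [← h2]
      exact h1
    refine ⟨h3, ?_⟩
    have h4 := ev_co hb
    have h5 : (⟨w • F, h3⟩ : ↥(B Γ)) = ⟨co (w • ev ⟨F, hF⟩), h1⟩ := Subtype.ext h2.symm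
    rw [h5, h4]
    exact hwA

/-- assembly, for an arbitrary normed space -/
private theorem assemble (X : Type) [NormedAddCommGroup X] [NormedSpace ℂ X] (hp : PosS X)
    (hn : NegS.{v} X) :
      (∃ A : Set (WeakDual ℂ X), IsDenseSigmaSubsetOfBall.{0} A ∧ Convex ℝ A ∧
        (∀ φ : WeakDual ℂ X, -φ ∈ A ↔ φ ∈ A) ∧
        ∃ D : Submodule ℝ (WeakDual ℂ X), A = dualBall X ∩ D) ∧
      (∀ A : Set (WeakDual ℂ X), IsDenseSigmaSubsetOfBall.{v} A → ¬ IsAbsolutelyConvex A) ∧
      (∀ S A : Set (WeakDual ℂ X), IsSigmaSubsetOfBall.{v} S → A ⊆ S → dualBall X ⊆ closure A →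
        Convex ℝ A → ∀ w : ℂ, w.im ≠ 0 → ∃ φ ∈ A, w • φ ∉ A) := by
  refine ⟨?_, ?_, ?_⟩
  · obtain ⟨A, hA, D, hD⟩ := hp
    refine ⟨A, hA, ?_, ?_, D, hD⟩
    · rw [hD]
      refine Convex.inter ?_ D.convex
      intro φ hφ ψ hψ s t hs ht hst
      rw [mem_dualBall] at hφ hψ ⊢
      intro x
      have e : (s • φ + t • ψ) x = (s : ℂ) * φ x + (t : ℂ) * ψ x := by
        show s • φ x + t • ψ x = _
        rw [Complex.real_smul, Complex.real_smul]
      rw [e]
      calc ‖(s : ℂ) * φ x + (t : ℂ) * ψ x‖ ≤ ‖(s : ℂ) * φ x‖ + ‖(t : ℂ) * ψ x‖ := norm_add_le _ _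
        _ = s * ‖φ x‖ + t * ‖ψ x‖ := by
          rw [norm_mul, norm_mul, Complex.norm_real, Complex.norm_real, Real.norm_of_nonneg hs,
            Real.norm_of_nonneg ht]
        _ ≤ s * ‖x‖ + t * ‖x‖ := add_le_add (mul_le_mul_of_nonneg_left (hφ x) hs)
            (mul_le_mul_of_nonneg_left (hψ x) ht)
        _ = ‖x‖ := by rw [← add_mul, hst, one_mul]
    · intro φ
      rw [hD]
      have h1 : ∀ φ : WeakDual ℂ X, φ ∈ dualBall X ∩ D → -φ ∈ dualBall X ∩ D := by
        rintro φ ⟨ha, hb⟩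
        refine ⟨?_, D.neg_mem hb⟩
        rw [mem_dualBall] at ha ⊢
        intro x
        have e : (-φ) x = -(φ x) := rfl
        rw [e, norm_neg]
        exact ha x
      constructor
      · intro h
        have := h1 _ h
        rwa [neg_neg] at this
      · exact h1 φ
  · intro A hA habs
    -- an absolutely convex set is convex and invariant under the multiplication by `i`
    have h2 : ∀ s t : ℂ, ‖s‖ + ‖t‖ ≤ 1 → ∀ a ∈ A, ∀ b ∈ A, s • a + t • b ∈ A := by
      intro s t hst a ha b hb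
      have := habs 2 (by norm_num) ![a, b] (by
        intro i
        fin_cases i
        · exact ha
        · exact hb) ![s, t] (by
        rw [Fin.sum_univ_two]
        exact hst)
      rw [Fin.sum_univ_two] at this
      exact this
    obtain ⟨φ, hφ, hφ2⟩ := hn A A hA.1 subset_rfl hA.2 (by
      intro a ha b hb s t hs ht hst
      have := h2 (s : ℂ) (t : ℂ) (by
        rw [Complex.norm_real, Complex.norm_real, Real.norm_of_nonneg hs, Real.norm_of_nonneg ht]
        exact hst.le) a ha b hb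
      rw [Complex.coe_smul, Complex.coe_smul] at this
      exact this) Complex.I (by simp)
    apply hφ2
    have := h2 Complex.I 0 (by simp) φ hφ φ hφ
    simpa using this
  · exact hn

/-- **Disproof of Q1 in its strongest form.** There is a complex Banach space `X` such that
* `(B_{X*}, w*)` has a dense Σ-subset which is convex and symmetric; it is even the intersection of
  the ball with a real-linear subspace of `X*`;
* `(B_{X*}, w*)` has no absolutely convex dense Σ-subset;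
* moreover no dense convex subset `A` of the ball which is contained in a Σ-subset `S` of the ball
  satisfies `w A ⊆ A` for any non-real `w : ℂ`.
In the last two items the index sets of the embeddings may lie in any universe. -/
theorem result :
    ∃ (X : Type) (_ : NormedAddCommGroup X) (_ : NormedSpace ℂ X) (_ : CompleteSpace X),
      (∃ A : Set (WeakDual ℂ X), IsDenseSigmaSubsetOfBall.{0} A ∧ Convex ℝ A ∧
        (∀ φ : WeakDual ℂ X, -φ ∈ A ↔ φ ∈ A) ∧
        ∃ D : Submodule ℝ (WeakDual ℂ X), A = dualBall X ∩ D) ∧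
      (∀ A : Set (WeakDual ℂ X), IsDenseSigmaSubsetOfBall.{v} A → ¬ IsAbsolutelyConvex A) ∧
      (∀ S A : Set (WeakDual ℂ X), IsSigmaSubsetOfBall.{v} S → A ⊆ S → dualBall X ⊆ closure A →
        Convex ℝ A → ∀ w : ℂ, w.im ≠ 0 → ∃ φ ∈ A, w • φ ∉ A) := by
  classical
  obtain ⟨Γ, hΓ⟩ := exists_index
  have hinf : Infinite Γ := by
    rw [Cardinal.infinite_iff]
    exact (Cardinal.aleph0_le_aleph 2).trans hΓ
  have hnt : Nontrivial Γ := inferInstance
  exact ⟨↥(Xs Γ), inferInstance, inferInstance, inferInstance,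
    assemble ↥(Xs Γ) (positive Γ) (negative.{v} hΓ)⟩

end Pool.Agent.Results.MP_54c5a6_an.SigmaSubsetDisproof
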